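import Pool.Agent.Helper57.NX.Defs3
import Pool.Agent.Helper57.FP.Final

/-!
# Project NX, module 34: final form (arbitrary lists of non-integer exponents)

`nx_final_of` deduces the final form from the pattern theorem for increasing lists of exponents.
-/

set_option autoImplicit false

open Finset
open scoped BigOperators ComplexConjugate

namespace Pool.Agent.Helper57.NX

/-- The pattern theorem for strictly increasing lists of positive non-natural exponents. -/
def PatternP : Prop :=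
  ∀ (l : ℕ) (c : Fin l → ℝ), StrictMono c → (∀ i, 0 < c i) → (∀ i (n : ℕ), c i ≠ n) →
    ∀ δ : ℝ, 0 < δ → ∀ N0 : ℕ,
    ∃ z0 : ℕ, ∀ z : ℕ, z0 ≤ z → ∀ A : Finset ℕ, (∀ p ∈ A, p.Prime ∧ p < 2 ^ z) →
    δ * ((2 : ℝ) ^ z / Real.log ((2 : ℝ) ^ z)) ≤ A.card →
    ∃ m ∈ A, ∃ n : ℕ, N0 ≤ n ∧ ∀ i, m + ⌊(n : ℝ) ^ c i⌋₊ ∈ A

theorem nx_final_of (hP : PatternP) (A : Set ℕ) (hA : ∀ p ∈ A, p.Prime)
    (hd : ∃ δ : ℝ, 0 < δ ∧ ∃ᶠ x : ℕ in Filter.atTop,
      δ * (Nat.primeCounting x : ℝ) ≤ ({p ∈ A | p ≤ x}.ncard : ℝ))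
    (l : ℕ) (c : Fin l → ℝ) (hc : ∀ i, 0 < c i ∧ ∀ n : ℕ, c i ≠ n) (N : ℕ) :
    ∃ m ∈ A, ∃ n : ℕ, N ≤ n ∧ ∀ i, m + ⌊(n : ℝ) ^ c i⌋₊ ∈ A := by
  classical
  obtain ⟨δ, hδ, hfreq⟩ := hd
  -- the increasing list of exponents
  set E : Finset ℝ := Finset.univ.image c with hE
  set o := E.orderEmbOfFin rfl with ho
  have hmem : ∀ j, ∃ i, c i = o j := by
    intro j
    have h1 : o j ∈ E := Finset.orderEmbOfFin_mem E rfl j
    obtain ⟨i, _, hi⟩ := Finset.mem_image.1 h1
    exact ⟨i, hi⟩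
  have hex : ∀ i, ∃ j, o j = c i := by
    intro i
    have h1 : c i ∈ Set.range o := by
      rw [ho, Finset.range_orderEmbOfFin]
      exact Finset.mem_coe.mpr (Finset.mem_image_of_mem c (Finset.mem_univ i))
    exact h1
  obtain ⟨z0, hz0⟩ := hP E.card o o.strictMono
    (fun j => by obtain ⟨i, hi⟩ := hmem j; rw [← hi]; exact (hc i).1)
    (fun j n => by obtain ⟨i, hi⟩ := hmem j; rw [← hi]; exact (hc i).2 n)
    (δ / 8) (by positivity) N
  have hd2 := hfreq.and_eventually FP.chebyshev_lower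
  rw [Filter.frequently_atTop] at hd2
  obtain ⟨x, hx, hxd, hxc⟩ := hd2 (2 ^ (max z0 2))
  set z := Nat.log 2 x + 1 with hz
  have hxpos : 0 < x := lt_of_lt_of_le (by positivity) hx
  have h1 : 2 ^ (Nat.log 2 x) ≤ x := Nat.pow_log_le_self 2 hxpos.ne'
  have h2 : x < 2 ^ z := Nat.lt_pow_succ_log_self (by norm_num) x
  have h3 : max z0 2 < z := by
    by_contra hne
    have : 2 ^ z ≤ 2 ^ (max z0 2) := Nat.pow_le_pow_right (by norm_num) (not_lt.mp hne)
    omega
  have hz0' : z0 ≤ z := (le_max_left _ _).trans h3.le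
  set F : Finset ℕ := (range (2 ^ z)).filter (· ∈ A) with hF
  have hFA : ∀ q ∈ F, q ∈ A := fun q hq => (Finset.mem_filter.mp hq).2
  have h4 : {p ∈ A | p ≤ x}.ncard ≤ F.card := by
    have h5 : {p ∈ A | p ≤ x} ⊆ (F : Set ℕ) := by
      intro p hp
      rw [Finset.mem_coe, hF, Finset.mem_filter, Finset.mem_range]
      exact ⟨lt_of_le_of_lt hp.2 h2, hp.1⟩
    calc {p ∈ A | p ≤ x}.ncard ≤ (F : Set ℕ).ncard := Set.ncard_le_ncard h5 F.finite_toSet
      _ = F.card := Set.ncard_coe_finset F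
  obtain ⟨m, hm, n, hn, hall⟩ := hz0 z hz0' F
    (by
      intro p hp
      rw [hF, Finset.mem_filter, Finset.mem_range] at hp
      exact ⟨hA p hp.2, hp.1⟩)
    (by
      have h5 : ((range (x + 1)).filter Nat.Prime).card = Nat.primeCounting x := by
        rw [Nat.primeCounting, Nat.primeCounting', Nat.count_eq_card_filter_range]
      rw [h5] at hxc
      have h4' : (({p ∈ A | p ≤ x}.ncard : ℕ) : ℝ) ≤ F.card := by exact_mod_cast h4
      have h6 : (2 : ℝ) ≤ x := by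
        have : 2 ≤ x := by
          calc 2 = 2 ^ 1 := rfl
            _ ≤ 2 ^ (max z0 2) := Nat.pow_le_pow_right (by norm_num)
                (le_trans (by norm_num) (le_max_right _ _))
            _ ≤ x := hx
        exact_mod_cast this
      have h7 : (x : ℝ) ≤ 2 ^ z := by exact_mod_cast h2.le
      have h8 : 0 < Real.log x := Real.log_pos (by linarith)
      have h9 : Real.log x ≤ Real.log (2 ^ z) := Real.log_le_log (by linarith) h7
      have h10 : (2 : ℝ) ^ z ≤ 2 * x := by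
        rw [hz, pow_succ]
        have : ((2 : ℝ) ^ (Nat.log 2 x)) ≤ x := by exact_mod_cast h1
        linarith
      calc δ / 8 * ((2 : ℝ) ^ z / Real.log (2 ^ z)) ≤ δ / 8 * (2 * x / Real.log x) := by
            apply mul_le_mul_of_nonneg_left _ (by positivity)
            exact div_le_div₀ (by positivity) h10 h8 h9
        _ = δ * ((1 / 4 : ℝ) * ((x : ℝ) / Real.log x)) := by ring
        _ ≤ δ * (Nat.primeCounting x : ℝ) := mul_le_mul_of_nonneg_left hxc hδ.le
        _ ≤ _ := hxd.trans h4')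
  refine ⟨m, hFA m hm, n, hn, ?_⟩
  intro i
  obtain ⟨j, hj⟩ := hex i
  have h5 := hall j
  rw [hj] at h5
  exact hFA _ h5

end Pool.Agent.Helper57.NX
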